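import Pool.Agent.TH319.ComplexCase

/-!
The isometric homogeneity problem: a separable infinite-dimensional Banach space, real or
complex, which is isometric to each of its closed infinite-dimensional subspaces is isometric to
the Hilbert space of square-summable sequences.
-/

namespace Pool.Agent.Results.MP_df72c7_an.IsometricHomogeneity

/-- Both for real and for complex scalars: a separable infinite-dimensional Banach space which is
linearly isometric to each of its closed infinite-dimensional linear subspaces is linearly
isometric to the space of square-summable scalar sequences. -/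
theorem result :
    (∀ (X : Type*) [NormedAddCommGroup X] [NormedSpace ℝ X] [CompleteSpace X]
      [TopologicalSpace.SeparableSpace X], ¬ FiniteDimensional ℝ X →
      (∀ Y : Submodule ℝ X, IsClosed (Y : Set X) → ¬ FiniteDimensional ℝ Y →
        Nonempty (X ≃ₗᵢ[ℝ] Y)) →
      Nonempty (X ≃ₗᵢ[ℝ] lp (fun _ : ℕ => ℝ) 2)) ∧
    (∀ (X : Type*) [NormedAddCommGroup X] [NormedSpace ℂ X] [CompleteSpace X]
      [TopologicalSpace.SeparableSpace X], ¬ FiniteDimensional ℂ X →
      (∀ Y : Submodule ℂ X, IsClosed (Y : Set X) → ¬ FiniteDimensional ℂ Y →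
        Nonempty (X ≃ₗᵢ[ℂ] Y)) →
      Nonempty (X ≃ₗᵢ[ℂ] lp (fun _ : ℕ => ℂ) 2)) :=
  ⟨fun _ _ _ _ _ hinf hX => Pool.Agent.TH319.real_case hinf hX,
    fun _ _ _ _ _ hinf hX => Pool.Agent.TH319.complex_case hinf hX⟩

end Pool.Agent.Results.MP_df72c7_an.IsometricHomogeneity
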